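import Pool.Agent.H22.KL.K1

/-! Row GRAM of the board `kl_modules` (MP_ee74d2_an). -/

set_option autoImplicit false

namespace Pool.Agent.H22.KL

open MeasureTheory Set Filter FourierTransform Pool.Agent.H82.KL
open scoped ENNReal NNReal Topology SchwartzMap ComplexConjugate

theorem conj_e (x : ℝ) : conj (e x) = e (-x) := by
  unfold e
  rw [← Complex.exp_conj, map_mul, Complex.conj_ofReal, Complex.conj_I]
  congr 1
  push_cast
  ring

theorem sym_sq {d : ℕ} {a : EE d → ℂ} (ha : Sym a) : Sym (sq a) := by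
  refine ⟨?_, ?_, fun h => ha.2.2 ?_⟩
  · exact Complex.ofRealCLM.contDiff.comp (ha.1.norm_sq ℝ)
  · exact ha.2.1.comp_left (g := fun x : ℂ => ((‖x‖ ^ 2 : ℝ) : ℂ)) (by simp)
  · refine closure_mono ?_ h
    intro ξ hξ h0
    apply hξ
    unfold Pool.Agent.H82.KL.sq
    have h1 : a ξ = 0 := h0
    rw [h1]
    simp

theorem sym_integrable {d : ℕ} {a : EE d → ℂ} (ha : Sym a) : Integrable a :=
  ha.1.continuous.integrable_of_hasCompactSupport ha.2.1

theorem continuous_U {d : ℕ} {a : EE d → ℂ} (ha : Sym a) : Continuous (U a) := by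
  unfold U
  refine continuous_of_dominated (bound := fun ξ => ‖a ξ‖) ?_ ?_ (sym_integrable ha).norm ?_
  · intro z
    refine Continuous.aestronglyMeasurable ?_
    have h1 : Continuous fun ξ : EE d => e (inner ℝ z.1 ξ + z.2 * ‖ξ‖) :=
      continuous_e.comp (by fun_prop)
    exact h1.mul ha.1.continuous
  · intro z
    refine Eventually.of_forall fun ξ => ?_
    rw [norm_mul, norm_e, one_mul]
  · refine Eventually.of_forall fun ξ => ?_
    have h1 : Continuous fun z : EE d × ℝ => e (inner ℝ z.1 ξ + z.2 * ‖ξ‖) :=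
      continuous_e.comp (by fun_prop)
    exact h1.mul continuous_const

/-- the Schwartz function whose Fourier transform is the kernel -/
theorem exists_phi {d : ℕ} {a : EE d → ℂ} (ha : Sym a) (z : EE d × ℝ) :
    ∃ Φ : 𝓢(EE d, ℂ), (∀ ξ, Φ ξ = e (inner ℝ z.1 ξ + z.2 * ‖ξ‖) * a ξ) ∧
      ∀ y, (𝓕 Φ : 𝓢(EE d, ℂ)) y = U a (z.1 - y, z.2) := by
  have hφ : ∀ ξ : EE d, ξ ≠ 0 →
      ContDiffAt ℝ (⊤ : ℕ∞) (fun ξ : EE d => e (inner ℝ z.1 ξ + z.2 * ‖ξ‖)) ξ := by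
    intro ξ hξ
    unfold e
    have h1 : ContDiffAt ℝ (⊤ : ℕ∞) (fun ξ : EE d => ‖ξ‖) ξ := contDiffAt_norm ℝ hξ
    have h2 : ContDiffAt ℝ (⊤ : ℕ∞)
        (fun ξ : EE d => 2 * Real.pi * (inner ℝ z.1 ξ + z.2 * ‖ξ‖)) ξ :=
      contDiffAt_const.mul ((contDiffAt_const.inner ℝ contDiffAt_id).add
        (contDiffAt_const.mul h1))
    have h3 : ContDiffAt ℝ (⊤ : ℕ∞)
        (fun ξ : EE d => ((2 * Real.pi * (inner ℝ z.1 ξ + z.2 * ‖ξ‖) : ℝ) : ℂ)) ξ :=
      Complex.ofRealCLM.contDiff.contDiffAt.comp ξ h2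
    exact (h3.mul contDiffAt_const).cexp
  obtain ⟨h1, h2⟩ := contDiff_mul_off ha hφ
  refine ⟨h2.toSchwartzMap h1, fun ξ => rfl, fun y => ?_⟩
  have h3 : (𝓕 (h2.toSchwartzMap h1) : 𝓢(EE d, ℂ)) y =
      𝓕 (fun ξ : EE d => e (inner ℝ z.1 ξ + z.2 * ‖ξ‖) * a ξ) y := rfl
  rw [h3, fourier_e]
  unfold U
  congr 1
  funext ξ
  rw [← mul_assoc, ← e_add, inner_sub_left, real_inner_comm y ξ]
  congr 2
  ring

theorem gram_main : T_GRAM := by
  intro d a ha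
  refine ⟨sym_sq ha, continuous_U ha, fun z => ?_, fun z z' => ?_⟩
  · obtain ⟨Φ, -, h2⟩ := exists_phi ha z
    have h3 : (fun y : EE d => U a (z.1 - y, z.2)) = fun y => (𝓕 Φ : 𝓢(EE d, ℂ)) y := by
      funext y
      rw [h2]
    rw [h3]
    exact ⟨(𝓕 Φ : 𝓢(EE d, ℂ)).integrable, (𝓕 Φ : 𝓢(EE d, ℂ)).memLp 2 volume⟩
  · obtain ⟨Φ, h1, h2⟩ := exists_phi ha z
    obtain ⟨Φ', h1', h2'⟩ := exists_phi ha z'
    have h3 := SchwartzMap.integral_inner_fourier_fourier Φ' Φ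
    simp only [RCLike.inner_apply, h2, h2', h1, h1'] at h3
    rw [h3]
    unfold U
    congr 1
    funext ξ
    unfold Pool.Agent.H82.KL.sq
    rw [map_mul, conj_e]
    have h4 : ((‖a ξ‖ ^ 2 : ℝ) : ℂ) = a ξ * conj (a ξ) := by
      rw [Complex.mul_conj, Complex.normSq_eq_norm_sq]
    have h5 : e (inner ℝ (z - z').1 ξ + (z - z').2 * ‖ξ‖) =
        e (inner ℝ z.1 ξ + z.2 * ‖ξ‖) * e (-(inner ℝ z'.1 ξ + z'.2 * ‖ξ‖)) := by
      rw [← e_add, Prod.fst_sub, Prod.snd_sub, inner_sub_left]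
      congr 1
      ring
    rw [h4, h5]
    ring

end Pool.Agent.H22.KL
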