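import Pool.Agent.H22.KL.PKZ

/-! Row K1 of the board `kl_modules` (MP_ee74d2_an). -/

set_option autoImplicit false

namespace Pool.Agent.H22.KL

open MeasureTheory Set Filter FourierTransform Pool.Agent.H82.KL
open scoped ENNReal NNReal Topology SchwartzMap

/-- the Fourier transform written with `e` -/
theorem fourier_e {d : ℕ} (f : EE d → ℂ) (w : EE d) :
    𝓕 f w = ∫ v, e (-(inner ℝ v w)) * f v := by
  rw [Real.fourier_eq']
  congr 1
  funext v
  unfold e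
  rw [smul_eq_mul]
  congr 3
  push_cast
  ring

/-- a smooth function with compact support off the origin, times a function smooth off the
origin -/
theorem contDiff_mul_off {d : ℕ} {a φ : EE d → ℂ} (ha : Sym a)
    (hφ : ∀ ξ, ξ ≠ 0 → ContDiffAt ℝ (⊤ : ℕ∞) φ ξ) :
    ContDiff ℝ (⊤ : ℕ∞) (fun ξ => φ ξ * a ξ) ∧ HasCompactSupport (fun ξ => φ ξ * a ξ) := by
  refine ⟨contDiff_iff_contDiffAt.2 fun ξ => ?_, ha.2.1.mul_left⟩
  by_cases h : ξ ∈ tsupport a
  · have h0 : ξ ≠ 0 := fun h0 => ha.2.2 (h0 ▸ h)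
    exact (hφ ξ h0).mul ha.1.contDiffAt
  · have h1 : (fun ξ => φ ξ * a ξ) =ᶠ[𝓝 ξ] fun _ => 0 := by
      have h2 : a =ᶠ[𝓝 ξ] 0 := notMem_tsupport_iff_eventuallyEq.1 h
      filter_upwards [h2] with x hx
      rw [hx, Pi.zero_apply, mul_zero]
    exact contDiffAt_const.congr_of_eventuallyEq h1

theorem contDiffAt_normC {d : ℕ} {ξ : EE d} (h : ξ ≠ 0) :
    ContDiffAt ℝ (⊤ : ℕ∞) (fun ξ : EE d => ((‖ξ‖ : ℝ) : ℂ)) ξ :=
  Complex.ofRealCLM.contDiff.contDiffAt.comp ξ (contDiffAt_norm ℝ h)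

theorem peetre {A X X' Z : ℝ} (hA : 0 ≤ A) (hX : 0 < X) (hX' : 0 < X') (hZ : 0 < Z)
    (h : X ≤ X' * Z) : X' ^ (-A) ≤ X ^ (-A) * Z ^ A := by
  have h1 : X ^ A ≤ X' ^ A * Z ^ A := by
    rw [← Real.mul_rpow hX'.le hZ.le]
    exact Real.rpow_le_rpow hX.le h hA
  rw [Real.rpow_neg hX'.le, Real.rpow_neg hX.le]
  have h2 : 0 < X ^ A := Real.rpow_pos_of_pos hX A
  have h3 : 0 < X' ^ A := Real.rpow_pos_of_pos hX' A
  rw [inv_mul_eq_div, le_div_iff₀ h2, inv_mul_le_iff₀ h3]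
  exact h1

/-- moments of Schwartz functions -/
theorem schwartz_moment {d : ℕ} (p : 𝓢(EE d, ℂ)) (k : ℕ) :
    Integrable (fun y : EE d => ‖p y‖ * (1 + ‖y‖) ^ k) := by
  have h1 := (p.integrable_pow_mul volume 0)
  have h2 := (p.integrable_pow_mul volume k)
  have h3 := (h1.add h2).const_mul ((2 : ℝ) ^ k)
  refine h3.mono' ?_ (Eventually.of_forall fun y => ?_)
  · exact (Continuous.aestronglyMeasurable (by
      have := p.continuous
      fun_prop))
  · rw [Real.norm_of_nonneg (by positivity)]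
    have hy : 0 ≤ ‖y‖ := norm_nonneg y
    have h4 : (1 + ‖y‖) ^ k ≤ 2 ^ k * (1 + ‖y‖ ^ k) := by
      rcases le_total ‖y‖ 1 with h | h
      · calc (1 + ‖y‖) ^ k ≤ 2 ^ k := pow_le_pow_left₀ (by positivity) (by linarith) k
          _ = 2 ^ k * 1 := by ring
          _ ≤ _ := by
            refine mul_le_mul_of_nonneg_left ?_ (by positivity)
            have : 0 ≤ ‖y‖ ^ k := by positivity
            linarith
      · calc (1 + ‖y‖) ^ k ≤ (2 * ‖y‖) ^ k := pow_le_pow_left₀ (by positivity) (by linarith) k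
          _ = 2 ^ k * ‖y‖ ^ k := mul_pow _ _ _
          _ ≤ _ := by
            refine mul_le_mul_of_nonneg_left ?_ (by positivity)
            linarith
    simp only [Pi.add_apply, pow_zero, one_mul]
    calc ‖p y‖ * (1 + ‖y‖) ^ k ≤ ‖p y‖ * (2 ^ k * (1 + ‖y‖ ^ k)) :=
          mul_le_mul_of_nonneg_left h4 (norm_nonneg _)
      _ = _ := by ring

/-- the wave kernel with the weight `w` -/
noncomputable def JW {d : ℕ} (w : EE d → ℂ) (y : EE d) (s : ℝ) : ℂ :=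
  ∫ ξ : EE d, e (inner ℝ y ξ + s * ‖ξ‖) * w ξ

/-- `U a` as a convolution -/
theorem U_conv {d : ℕ} (a w : EE d → ℂ) (p : 𝓢(EE d, ℂ)) (hw : Integrable w)
    (hwc : Continuous w) (hp : ∀ ξ, a ξ = w ξ * 𝓕 (p : EE d → ℂ) ξ) (y : EE d) (s : ℝ) :
    U a (y, s) = ∫ y' : EE d, p y' * JW w (y - y') s := by
  have h1 : U a (y, s) = ∫ ξ : EE d, ∫ y' : EE d,
      e (inner ℝ y ξ + s * ‖ξ‖) * w ξ * (e (-(inner ℝ y' ξ)) * p y') := by
    unfold U
    congr 1
    funext ξ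
    rw [integral_const_mul, hp, fourier_e]
    ring
  rw [h1, integral_integral_swap]
  · congr 1
    funext y'
    unfold JW
    rw [← integral_const_mul]
    congr 1
    funext ξ
    have h2 : e (inner ℝ (y - y') ξ + s * ‖ξ‖) = e (inner ℝ y ξ + s * ‖ξ‖) *
        e (-(inner ℝ y' ξ)) := by
      rw [← e_add, inner_sub_left]
      congr 1
      ring
    rw [h2]
    ring
  · have h2 : Integrable (fun q : EE d × EE d => w q.1 * p q.2) (volume.prod volume) :=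
      hw.mul_prod p.integrable
    refine h2.norm.mono' ?_ (Eventually.of_forall fun q => ?_)
    · refine Continuous.aestronglyMeasurable ?_
      have hpc := p.continuous
      have e1 : Continuous fun q : EE d × EE d => e (inner ℝ y q.1 + s * ‖q.1‖) :=
        continuous_e.comp (by fun_prop)
      have e2 : Continuous fun q : EE d × EE d => e (-(inner ℝ q.2 q.1)) :=
        continuous_e.comp (by fun_prop)
      have e3 : Continuous fun q : EE d × EE d => w q.1 := hwc.comp continuous_fst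
      have e4 : Continuous fun q : EE d × EE d => p q.2 := hpc.comp continuous_snd
      exact (e1.mul e3).mul (e2.mul e4)
    · simp only [Function.uncurry]
      rw [norm_mul, norm_mul, norm_mul, norm_e, norm_e, one_mul, one_mul, norm_mul]

theorem k1_main (h : T_PKN) : T_K1 := by
  intro d M a hd ha
  obtain ⟨C, hC, hK⟩ := h d M
  have hd' : (1 : ℝ) ≤ d := by exact_mod_cast hd
  -- the weight
  set w : EE d → ℂ := fun ξ => ((‖ξ‖ ^ M * Real.exp (-(2 * Real.pi * ‖ξ‖)) : ℝ) : ℂ) with hw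
  have hwc : Continuous w := by
    rw [hw]
    exact Complex.continuous_ofReal.comp (by fun_prop)
  have hwi : Integrable w := by
    have h1 := expint d M (2 * Real.pi) (by positivity)
    exact h1.ofReal
  have hw0 : ∀ ξ : EE d, ξ ≠ 0 → w ξ ≠ 0 := by
    intro ξ hξ
    have h1 : 0 < ‖ξ‖ := norm_pos_iff.2 hξ
    rw [hw]
    simp only [ne_eq, Complex.ofReal_eq_zero]
    positivity
  have hφ : ∀ ξ : EE d, ξ ≠ 0 → ContDiffAt ℝ (⊤ : ℕ∞) (fun ξ => (w ξ)⁻¹) ξ := by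
    intro ξ hξ
    have h1 : ContDiffAt ℝ (⊤ : ℕ∞) w ξ := by
      have h2 : ContDiffAt ℝ (⊤ : ℕ∞)
          (fun ξ : EE d => ‖ξ‖ ^ M * Real.exp (-(2 * Real.pi * ‖ξ‖))) ξ := by
        have h3 : ContDiffAt ℝ (⊤ : ℕ∞) (fun ξ : EE d => ‖ξ‖) ξ := contDiffAt_norm ℝ hξ
        exact (h3.pow M).mul ((contDiffAt_const.mul h3).neg.exp)
      exact Complex.ofRealCLM.contDiff.contDiffAt.comp ξ h2
    exact h1.inv (hw0 ξ hξ)
  obtain ⟨hG1, hG2⟩ := contDiff_mul_off ha hφ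
  set G : 𝓢(EE d, ℂ) := hG2.toSchwartzMap hG1 with hG
  have hGa : ∀ ξ, G ξ = (w ξ)⁻¹ * a ξ := fun ξ => rfl
  set p : 𝓢(EE d, ℂ) := 𝓕⁻ G with hp
  have hFp : ∀ ξ, a ξ = w ξ * 𝓕 (p : EE d → ℂ) ξ := by
    intro ξ
    have h1 : 𝓕 (p : EE d → ℂ) ξ = G ξ := by
      have h2 : 𝓕 p = G := by rw [hp]; exact FourierTransform.fourier_fourierInv_eq G
      have h3 := congrArg (fun f : 𝓢(EE d, ℂ) => f ξ) h2
      exact h3
    rw [h1, hGa]
    by_cases h0 : ξ = 0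
    · have h2 : a ξ = 0 := by
        by_contra h3
        exact ha.2.2 (h0 ▸ subset_tsupport a h3)
      rw [h2, mul_zero, mul_zero]
    · rw [← mul_assoc, mul_inv_cancel₀ (hw0 ξ h0), one_mul]
  set A : ℝ := ((d : ℝ) - 1) / 2 with hA
  set B : ℝ := ((d : ℝ) + 1) / 2 + M with hB
  have hA0 : 0 ≤ A := by rw [hA]; linarith
  have hB0 : 0 ≤ B := by rw [hB]; positivity
  have hAB : A + B = ((d + M : ℕ) : ℝ) := by rw [hA, hB]; push_cast; ring
  have hmom := schwartz_moment p (d + M)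
  refine ⟨C * ∫ y' : EE d, ‖p y'‖ * (1 + ‖y'‖) ^ (d + M), by positivity, fun y s => ?_⟩
  set X : ℝ := 1 + ‖y‖ + |s| with hX
  set Y : ℝ := 1 + abs (‖y‖ - |s|) with hY
  have hX1 : 1 ≤ X := by rw [hX]; linarith [norm_nonneg y, abs_nonneg s]
  have hY1 : 1 ≤ Y := by rw [hY]; linarith [abs_nonneg (‖y‖ - |s|)]
  have hbound : ‖U a (y, s)‖ ≤ ∫ y' : EE d,
      (C * (X ^ (-A) * Y ^ (-B))) * (‖p y'‖ * (1 + ‖y'‖) ^ (d + M)) := by
    rw [U_conv a w p hwi hwc hFp y s]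
    refine norm_integral_le_of_norm_le (hmom.const_mul _) (Eventually.of_forall fun y' => ?_)
    rw [norm_mul]
    have h1 : ‖JW w (y - y') s‖ ≤ C * (1 + ‖y - y'‖ + |s|) ^ (-A) *
        (1 + abs (‖y - y'‖ - |s|)) ^ (-B) := hK (y - y') s
    have hn : 0 ≤ ‖y'‖ := norm_nonneg y'
    have hn2 : 0 ≤ ‖y - y'‖ := norm_nonneg _
    have hn3 : 0 ≤ |s| := abs_nonneg s
    have hn4 : 0 ≤ abs (‖y - y'‖ - |s|) := abs_nonneg _
    have htri : ‖y‖ ≤ ‖y - y'‖ + ‖y'‖ := by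
      have := norm_add_le (y - y') y'
      rwa [sub_add_cancel] at this
    have htri2 : ‖y - y'‖ ≤ ‖y‖ + ‖y'‖ := norm_sub_le _ _
    have hP1 : (1 + ‖y - y'‖ + |s|) ^ (-A) ≤ X ^ (-A) * (1 + ‖y'‖) ^ A := by
      refine peetre hA0 (by linarith) (by positivity) (by positivity) ?_
      rw [hX]
      nlinarith
    have hP2 : (1 + abs (‖y - y'‖ - |s|)) ^ (-B) ≤ Y ^ (-B) * (1 + ‖y'‖) ^ B := by
      refine peetre hB0 (by linarith) (by positivity) (by positivity) ?_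
      have h2 : abs (‖y‖ - |s|) ≤ abs (‖y - y'‖ - |s|) + ‖y'‖ := by
        have h3 : abs (‖y‖ - ‖y - y'‖) ≤ ‖y'‖ := abs_le.2 ⟨by linarith, by linarith⟩
        have h4 : ‖y‖ - |s| = (‖y - y'‖ - |s|) + (‖y‖ - ‖y - y'‖) := by ring
        rw [h4]
        exact (abs_add_le _ _).trans (by linarith)
      rw [hY]
      nlinarith
    have h5 : (1 + ‖y'‖) ^ A * (1 + ‖y'‖) ^ B = (1 + ‖y'‖) ^ (d + M) := by
      rw [← Real.rpow_add (by positivity), hAB, Real.rpow_natCast]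
    calc ‖p y'‖ * ‖JW w (y - y') s‖ ≤ ‖p y'‖ * (C * (X ^ (-A) * (1 + ‖y'‖) ^ A) *
          (Y ^ (-B) * (1 + ‖y'‖) ^ B)) := by
          refine mul_le_mul_of_nonneg_left (h1.trans ?_) (norm_nonneg _)
          gcongr
      _ = (C * (X ^ (-A) * Y ^ (-B))) * (‖p y'‖ * ((1 + ‖y'‖) ^ A * (1 + ‖y'‖) ^ B)) := by ring
      _ = _ := by rw [h5]
  rw [integral_const_mul] at hbound
  have hYM : Y ^ (-B) ≤ (Y ^ M)⁻¹ := by
    rw [Real.rpow_neg (by linarith)]
    refine inv_anti₀ (by positivity) ?_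
    rw [← Real.rpow_natCast]
    refine Real.rpow_le_rpow_of_exponent_le hY1 ?_
    rw [hB]
    have : (0 : ℝ) ≤ ((d : ℝ) + 1) / 2 := by positivity
    linarith
  have hI : 0 ≤ ∫ y' : EE d, ‖p y'‖ * (1 + ‖y'‖) ^ (d + M) := by positivity
  calc ‖U a (y, s)‖ ≤ (C * (X ^ (-A) * Y ^ (-B))) *
        ∫ y' : EE d, ‖p y'‖ * (1 + ‖y'‖) ^ (d + M) := hbound
    _ = (C * ∫ y' : EE d, ‖p y'‖ * (1 + ‖y'‖) ^ (d + M)) * X ^ (-A) * Y ^ (-B) := by ring
    _ ≤ _ := by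
      refine mul_le_mul_of_nonneg_left hYM ?_
      have : 0 ≤ X ^ (-A) := Real.rpow_nonneg (by linarith) _
      positivity

end Pool.Agent.H22.KL
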