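import Pool.Agent.H82.KL.Targets3

/-! Row DUAL (T_DUAL2) of the board `kl_modules` (MP_ee74d2_an). -/

set_option autoImplicit false

namespace Pool.Agent.H22.KL

open MeasureTheory Set Filter Pool.Agent.H82.KL
open scoped ENNReal NNReal Topology ComplexConjugate

theorem dual_main (h : T_GRAM) : T_DUAL2 := by
  intro d a f Y c ha hf hfin
  obtain ⟨-, hcU, hU, hG⟩ := h d a ha
  -- the kernel at the point z
  set u : EE d × ℝ → EE d → ℂ := fun z y => U a (z.1 - y, z.2) with hu
  have huc : ∀ z, Continuous (u z) := fun z => hcU.comp (by fun_prop)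
  set V : EE d → ℂ := fun y => ∑ z ∈ Y, c z * u z y with hV
  have hVc : Continuous V := by
    rw [hV]
    exact continuous_finsetSum _ fun z _ => continuous_const.mul (huc z)
  have hint2 : ∀ z z', Integrable (fun y => u z y * conj (u z' y)) := by
    intro z z'
    have h1 : MemLp (u z) 2 volume := (hU z).2
    have h2 : MemLp (fun y => conj (u z' y)) 2 volume := by
      have h3 := (hU z').2
      refine ⟨(Complex.continuous_conj.comp (huc z')).aestronglyMeasurable, ?_⟩
      have h4 : eLpNorm (fun y => conj (u z' y)) 2 volume = eLpNorm (u z') 2 volume :=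
        eLpNorm_congr_norm_ae (Eventually.of_forall fun y => by simp)
      rw [h4]
      exact h3.2
    exact h1.integrable_mul h2
  -- the square of the norm of V
  have hVV : ∫ y, V y * conj (V y) =
      ∑ z ∈ Y, ∑ z' ∈ Y, c z * conj (c z') * U (Pool.Agent.H82.KL.sq a) (z - z') := by
    have h1 : ∀ y, V y * conj (V y) =
        ∑ z ∈ Y, ∑ z' ∈ Y, c z * conj (c z') * (u z y * conj (u z' y)) := by
      intro y
      rw [hV]
      simp only
      rw [map_sum, Finset.sum_mul_sum]
      refine Finset.sum_congr rfl fun z _ => Finset.sum_congr rfl fun z' _ => ?_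
      rw [map_mul]
      ring
    rw [integral_congr_ae (Eventually.of_forall h1), integral_finsetSum]
    · refine Finset.sum_congr rfl fun z _ => ?_
      rw [integral_finsetSum]
      · refine Finset.sum_congr rfl fun z' _ => ?_
        rw [integral_const_mul, ← hG z z']
      · intro z' _
        exact (hint2 z z').const_mul _
    · intro z _
      exact integrable_finsetSum _ fun z' _ => (hint2 z z').const_mul _
  have hVint : Integrable (fun y => V y * conj (V y)) := by
    have h1 : ∀ y, V y * conj (V y) =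
        ∑ z ∈ Y, ∑ z' ∈ Y, c z * conj (c z') * (u z y * conj (u z' y)) := by
      intro y
      rw [hV]
      simp only
      rw [map_sum, Finset.sum_mul_sum]
      refine Finset.sum_congr rfl fun z _ => Finset.sum_congr rfl fun z' _ => ?_
      rw [map_mul]
      ring
    have h2 : (fun y => V y * conj (V y)) =
        fun y => ∑ z ∈ Y, ∑ z' ∈ Y, c z * conj (c z') * (u z y * conj (u z' y)) := funext h1
    rw [h2]
    exact integrable_finsetSum _ fun z _ => integrable_finsetSum _ fun z' _ =>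
      (hint2 z z').const_mul _
  have hVn : ∀ y, V y * conj (V y) = ((‖V y‖ ^ 2 : ℝ) : ℂ) := by
    intro y
    rw [Complex.mul_conj, Complex.normSq_eq_norm_sq]
  have hVn2 : Integrable (fun y => ‖V y‖ ^ 2) := by
    have h1 := hVint.re
    refine h1.congr (Eventually.of_forall fun y => ?_)
    simp only
    rw [hVn y]
    exact Complex.ofReal_re _
  have hgq : gq a Y c = ∫ y, ‖V y‖ ^ 2 := by
    unfold gq
    have h1 : ∫ y, V y * conj (V y) = ((∫ y, ‖V y‖ ^ 2 : ℝ) : ℂ) := by
      rw [← integral_complex_ofReal]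
      exact integral_congr_ae (Eventually.of_forall hVn)
    rw [← hVV, h1]
    exact Complex.ofReal_re _
  have hgq0 : 0 ≤ gq a Y c := by
    rw [hgq]
    positivity
  refine ⟨hgq0, ?_⟩
  have hgl : ENNReal.ofReal (gq a Y c) = ∫⁻ y, ‖V y‖ₑ ^ 2 := by
    rw [hgq, ofReal_integral_eq_lintegral_ofReal hVn2 (Eventually.of_forall fun y => by positivity)]
    congr 1
    funext y
    rw [ENNReal.ofReal_pow (norm_nonneg _), ofReal_norm]
  -- the pairing
  have hpair : ∀ z, Integrable (fun y => u z y * f y) := by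
    intro z
    rcases hfin with ⟨N, hN⟩ | hfin
    · exact (hU z).1.mul_bdd hf.aestronglyMeasurable (Eventually.of_forall hN)
    · have h1 : MemLp f 2 volume := by
        refine ⟨hf.aestronglyMeasurable, ?_⟩
        rw [eLpNorm_lt_top_iff_lintegral_rpow_enorm_lt_top (by norm_num) (by norm_num)]
        have h2 : ∫⁻ y, ‖f y‖ₑ ^ (2 : ℝ≥0∞).toReal = ∫⁻ y, ‖f y‖ₑ ^ 2 := by
          congr 1
          funext y
          rw [ENNReal.toReal_ofNat, ENNReal.rpow_two]
        rw [h2]
        exact lt_top_iff_ne_top.2 hfin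
      exact (hU z).2.integrable_mul h1
  have hsum : ∑ z ∈ Y, c z * W a f z = ∫ y, V y * f y := by
    have h1 : ∀ y, V y * f y = ∑ z ∈ Y, c z * (u z y * f y) := by
      intro y
      rw [hV]
      simp only
      rw [Finset.sum_mul]
      refine Finset.sum_congr rfl fun z _ => ?_
      ring
    rw [integral_congr_ae (Eventually.of_forall h1), integral_finsetSum]
    · refine Finset.sum_congr rfl fun z _ => ?_
      rw [integral_const_mul]
      rfl
    · intro z _
      exact (hpair z).const_mul _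
  rw [hsum, hgl, ENNReal.ofReal_pow (norm_nonneg _), ofReal_norm]
  have hle : ‖∫ y, V y * f y‖ₑ ≤ (∫⁻ y, ‖f y‖ₑ ^ (2 : ℝ)) ^ (1 / (2 : ℝ)) *
      (∫⁻ y, ‖V y‖ₑ ^ (2 : ℝ)) ^ (1 / (2 : ℝ)) := by
    refine (enorm_integral_le_lintegral_enorm _).trans ?_
    have h1 : ∀ y, ‖V y * f y‖ₑ = ((fun y => ‖f y‖ₑ) * fun y => ‖V y‖ₑ) y := by
      intro y
      rw [enorm_mul, mul_comm]
      rfl
    rw [lintegral_congr h1]
    exact ENNReal.lintegral_mul_le_Lp_mul_Lq volume Real.HolderConjugate.two_two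
      hf.enorm.aemeasurable hVc.measurable.enorm.aemeasurable
  have hsq : ∀ x : ℝ≥0∞, (x ^ (1 / (2 : ℝ))) ^ 2 = x := by
    intro x
    rw [← ENNReal.rpow_two, ← ENNReal.rpow_mul]
    norm_num
  calc ‖∫ y, V y * f y‖ₑ ^ 2 ≤ ((∫⁻ y, ‖f y‖ₑ ^ (2 : ℝ)) ^ (1 / (2 : ℝ)) *
      (∫⁻ y, ‖V y‖ₑ ^ (2 : ℝ)) ^ (1 / (2 : ℝ))) ^ 2 := by gcongr
    _ = (∫⁻ y, ‖f y‖ₑ ^ (2 : ℝ)) * (∫⁻ y, ‖V y‖ₑ ^ (2 : ℝ)) := by
      rw [mul_pow, hsq, hsq]
    _ = _ := by
      simp only [ENNReal.rpow_two]

end Pool.Agent.H22.KL
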