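import Pool.Agent.H22.KL.PKZ

/-! Row PKN of the board `kl_modules` (MP_ee74d2_an). -/

set_option autoImplicit false

namespace Pool.Agent.H22.KL

open MeasureTheory Set Filter Pool.Agent.H82.KL
open scoped ENNReal NNReal Topology

/-- homogeneous polynomials of degree `m` in `z` and `ρ` -/
inductive Hom : ℕ → (ℂ → ℝ → ℂ) → Prop
  | const (c : ℂ) : Hom 0 (fun _ _ => c)
  | zero (m : ℕ) : Hom m (fun _ _ => 0)
  | mulz (m : ℕ) (P : ℂ → ℝ → ℂ) : Hom m P → Hom (m + 1) (fun z ρ => z * P z ρ)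
  | mulr (m : ℕ) (P : ℂ → ℝ → ℂ) : Hom m P → Hom (m + 1) (fun z ρ => (ρ : ℂ) * P z ρ)
  | add (m : ℕ) (P Q : ℂ → ℝ → ℂ) : Hom m P → Hom m Q → Hom m (fun z ρ => P z ρ + Q z ρ)
  | smul (m : ℕ) (c : ℂ) (P : ℂ → ℝ → ℂ) : Hom m P → Hom m (fun z ρ => c * P z ρ)

theorem Hom.bound {m : ℕ} {P : ℂ → ℝ → ℂ} (h : Hom m P) :
    ∃ C : ℝ, 0 ≤ C ∧ ∀ z ρ, ‖P z ρ‖ ≤ C * (‖z‖ + |ρ|) ^ m := by
  induction h with
  | const c => exact ⟨‖c‖, norm_nonneg _, fun z ρ => by simp⟩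
  | zero m => exact ⟨0, le_rfl, fun z ρ => by simp⟩
  | mulz m P _ ih =>
    obtain ⟨C, hC, hP⟩ := ih
    refine ⟨C, hC, fun z ρ => ?_⟩
    rw [norm_mul, pow_succ]
    calc ‖z‖ * ‖P z ρ‖ ≤ (‖z‖ + |ρ|) * (C * (‖z‖ + |ρ|) ^ m) :=
          mul_le_mul (le_add_of_nonneg_right (abs_nonneg _)) (hP z ρ) (norm_nonneg _)
            (by positivity)
      _ = _ := by ring
  | mulr m P _ ih =>
    obtain ⟨C, hC, hP⟩ := ih
    refine ⟨C, hC, fun z ρ => ?_⟩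
    rw [norm_mul, pow_succ, Complex.norm_real, Real.norm_eq_abs]
    calc |ρ| * ‖P z ρ‖ ≤ (‖z‖ + |ρ|) * (C * (‖z‖ + |ρ|) ^ m) :=
          mul_le_mul (le_add_of_nonneg_left (norm_nonneg _)) (hP z ρ) (norm_nonneg _)
            (by positivity)
      _ = _ := by ring
  | add m P Q _ _ ih1 ih2 =>
    obtain ⟨C, hC, hP⟩ := ih1
    obtain ⟨C', hC', hQ⟩ := ih2
    refine ⟨C + C', by positivity, fun z ρ => ?_⟩
    refine (norm_add_le _ _).trans ?_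
    rw [add_mul]
    exact add_le_add (hP z ρ) (hQ z ρ)
  | smul m c P _ ih =>
    obtain ⟨C, hC, hP⟩ := ih
    refine ⟨‖c‖ * C, by positivity, fun z ρ => ?_⟩
    rw [norm_mul, mul_assoc]
    exact mul_le_mul_of_nonneg_left (hP z ρ) (norm_nonneg _)

theorem Hom.deriv {m : ℕ} {P : ℂ → ℝ → ℂ} (h : Hom m P) :
    ∃ P' : ℂ → ℝ → ℂ, (∀ z ρ, HasDerivAt (fun w => P w ρ) (P' z ρ) z) ∧
      (m = 0 → ∀ z ρ, P' z ρ = 0) ∧ ∀ m', m = m' + 1 → Hom m' P' := by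
  induction h with
  | const c =>
    exact ⟨fun _ _ => 0, fun z ρ => hasDerivAt_const _ _, fun _ _ _ => rfl,
      fun m' h => absurd h (by omega)⟩
  | zero m =>
    exact ⟨fun _ _ => 0, fun z ρ => hasDerivAt_const _ _, fun _ _ _ => rfl,
      fun m' h => Hom.zero m'⟩
  | mulz m P hP ih =>
    obtain ⟨P', h1, h2, h3⟩ := ih
    refine ⟨fun z ρ => P z ρ + z * P' z ρ, fun z ρ => ?_, fun h => absurd h (by omega),
      fun m' hm => ?_⟩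
    · have h4 := (hasDerivAt_id z).mul (h1 z ρ)
      refine h4.congr_deriv ?_
      simp
    · obtain rfl : m = m' := by omega
      refine Hom.add m _ _ hP ?_
      rcases Nat.eq_zero_or_pos m with rfl | hpos
      · have h4 : (fun (z : ℂ) (ρ : ℝ) => z * P' z ρ) = fun _ _ => 0 := by
          funext z ρ
          rw [h2 rfl, mul_zero]
        rw [h4]
        exact Hom.zero 0
      · obtain ⟨m', rfl⟩ : ∃ m', m = m' + 1 := ⟨m - 1, by omega⟩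
        exact Hom.mulz m' P' (h3 m' rfl)
  | mulr m P hP ih =>
    obtain ⟨P', h1, h2, h3⟩ := ih
    refine ⟨fun z ρ => (ρ : ℂ) * P' z ρ, fun z ρ => (h1 z ρ).const_mul _,
      fun h => absurd h (by omega), fun m' hm => ?_⟩
    obtain rfl : m = m' := by omega
    rcases Nat.eq_zero_or_pos m with rfl | hpos
    · have h4 : (fun (z : ℂ) (ρ : ℝ) => (ρ : ℂ) * P' z ρ) = fun _ _ => 0 := by
        funext z ρ
        rw [h2 rfl, mul_zero]
      rw [h4]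
      exact Hom.zero 0
    · obtain ⟨m', rfl⟩ : ∃ m', m = m' + 1 := ⟨m - 1, by omega⟩
      exact Hom.mulr m' P' (h3 m' rfl)
  | add m P Q _ _ ih1 ih2 =>
    obtain ⟨P', h1, h2, h3⟩ := ih1
    obtain ⟨Q', g1, g2, g3⟩ := ih2
    exact ⟨fun z ρ => P' z ρ + Q' z ρ, fun z ρ => (h1 z ρ).add (g1 z ρ),
      fun h z ρ => by simp only [h2 h, g2 h, add_zero], fun m' hm => Hom.add m' _ _ (h3 m' hm) (g3 m' hm)⟩
  | smul m c P _ ih =>
    obtain ⟨P', h1, h2, h3⟩ := ih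
    exact ⟨fun z ρ => c * P' z ρ, fun z ρ => (h1 z ρ).const_mul _,
      fun h z ρ => by simp only [h2 h, mul_zero], fun m' hm => Hom.smul m' c _ (h3 m' hm)⟩

/-- the formula for `JJ` -/
theorem JJ_formula (h : T_PKZ) (d n : ℕ) : ∃ P : ℂ → ℝ → ℂ, Hom (n + 1) P ∧
    ∀ (y : EE d) (z : ℂ), 0 < z.re → JJ n y z = P z ‖y‖ *
      (z ^ 2 + (‖y‖ : ℂ) ^ 2) ^ (-((((d : ℝ) + 1) / 2 + n : ℝ) : ℂ)) := by
  induction n with
  | zero =>
    obtain ⟨c, hc⟩ := h d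
    refine ⟨fun z _ => z * (c : ℂ), Hom.mulz 0 _ (Hom.const _), fun y z hz => ?_⟩
    have h3 : JJ 0 y z = ∫ ξ : EE d, e (inner ℝ y ξ) *
        Complex.exp (-(2 * (Real.pi : ℂ) * z * (‖ξ‖ : ℂ))) := by
      unfold JJ
      congr 1
      funext ξ
      unfold ji
      rw [pow_zero, one_mul]
    rw [h3, hc z y hz, Nat.cast_zero, add_zero, mul_comm (c : ℂ) z]
  | succ n ih =>
    obtain ⟨P, hP, hJ⟩ := ih
    obtain ⟨P', h1, -, h3⟩ := hP.deriv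
    have hP' := h3 n rfl
    set g : ℝ := ((d : ℝ) + 1) / 2 + n with hg
    refine ⟨fun z ρ => (-(2 * (Real.pi : ℂ)))⁻¹ * ((z * (z * P' z ρ) + (ρ : ℂ) * ((ρ : ℂ) * P' z ρ)) +
      (-(2 * (g : ℂ))) * (z * P z ρ)), ?_, fun y z hz => ?_⟩
    · refine Hom.smul _ _ _ (Hom.add _ _ _ (Hom.add _ _ _ ?_ ?_) (Hom.smul _ _ _ ?_))
      · exact Hom.mulz _ _ (Hom.mulz _ _ hP')
      · exact Hom.mulr _ _ (Hom.mulr _ _ hP')
      · exact Hom.mulz _ _ hP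
    · set ρ : ℝ := ‖y‖ with hρ
      have hsl := slit hz ρ
      have hne : z ^ 2 + (ρ : ℂ) ^ 2 ≠ 0 := Complex.slitPlane_ne_zero hsl
      have h4 := hasDerivAt_JJ n y z hz
      have h5 : HasDerivAt (fun w : ℂ => w ^ 2 + (ρ : ℂ) ^ 2) (2 * z) z := by
        have h6 := (hasDerivAt_pow 2 z).add_const ((ρ : ℂ) ^ 2)
        refine h6.congr_deriv ?_
        simp
      have h6 := h5.cpow_const (c := -(g : ℂ)) hsl
      have h7 := (h1 z ρ).mul h6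
      have h8 : JJ n y =ᶠ[𝓝 z] ((fun w => P w ρ) * fun w => (w ^ 2 + (ρ : ℂ) ^ 2) ^ (-(g : ℂ))) := by
        have h9 : ∀ᶠ w : ℂ in 𝓝 z, 0 < w.re :=
          (isOpen_lt continuous_const Complex.continuous_re).mem_nhds hz
        filter_upwards [h9] with w hw
        exact hJ y w hw
      have h9 := h4.unique (h7.congr_of_eventuallyEq h8)
      have h10 : -(2 * (Real.pi : ℂ)) ≠ 0 := by
        refine neg_ne_zero.2 (mul_ne_zero two_ne_zero ?_)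
        exact_mod_cast Real.pi_pos.ne'
      have h11 : JJ (n + 1) y z = (-(2 * (Real.pi : ℂ)))⁻¹ *
          (-(2 * (Real.pi : ℂ)) * JJ (n + 1) y z) := by
        rw [← mul_assoc, inv_mul_cancel₀ h10, one_mul]
      rw [h11, h9]
      have h12 : (z ^ 2 + (ρ : ℂ) ^ 2) ^ (-(g : ℂ)) =
          (z ^ 2 + (ρ : ℂ) ^ 2) * (z ^ 2 + (ρ : ℂ) ^ 2) ^ (-(g : ℂ) - 1) := by
        rw [Complex.cpow_sub _ _ hne, Complex.cpow_one]
        field_simp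
      have h13 : (-((((d : ℝ) + 1) / 2 + ((n + 1 : ℕ) : ℝ) : ℝ) : ℂ)) = -(g : ℂ) - 1 := by
        rw [hg]
        push_cast
        ring
      rw [h13, h12]
      ring

theorem pkn_main (h : T_PKZ) : T_PKN := by
  intro d n
  obtain ⟨P, hP, hJ⟩ := JJ_formula h d n
  obtain ⟨C, hC, hb⟩ := hP.bound
  set g : ℝ := ((d : ℝ) + 1) / 2 + n with hg
  have hg0 : 0 ≤ g := by positivity
  refine ⟨C * 2 ^ g, by positivity, fun y s => ?_⟩
  set z : ℂ := ⟨1, -s⟩ with hz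
  have hzre : z.re = 1 := rfl
  have hzim : z.im = -s := rfl
  set ρ : ℝ := ‖y‖ with hρ
  have hρ0 : 0 ≤ ρ := norm_nonneg y
  have hσ0 : 0 ≤ |s| := abs_nonneg s
  have hzeq : z = 1 - (s : ℂ) * Complex.I := by
    apply Complex.ext
    · simp [hzre]
    · simp [hzim]
  have hint : (∫ ξ : EE d, e (inner ℝ y ξ + s * ‖ξ‖) *
      ((‖ξ‖ ^ n * Real.exp (-(2 * Real.pi * ‖ξ‖)) : ℝ) : ℂ)) = JJ n y z := by
    unfold JJ
    congr 1
    funext ξ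
    unfold ji
    rw [e_add, hzeq]
    have h1 : e (s * ‖ξ‖) * Complex.exp (-(2 * (Real.pi : ℂ) * (‖ξ‖ : ℂ))) =
        Complex.exp (-(2 * (Real.pi : ℂ) * (1 - (s : ℂ) * Complex.I) * (‖ξ‖ : ℂ))) := by
      unfold e
      rw [← Complex.exp_add]
      congr 1
      push_cast
      ring
    rw [← h1]
    push_cast
    ring
  rw [hint, hJ y z (by rw [hzre]; exact one_pos), norm_mul]
  have hcp : ‖(z ^ 2 + (ρ : ℂ) ^ 2) ^ (-((g : ℝ) : ℂ))‖ = ‖z ^ 2 + (ρ : ℂ) ^ 2‖ ^ (-g) := by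
    have h1 : (-((g : ℝ) : ℂ)) = ((-g : ℝ) : ℂ) := by push_cast; rfl
    rw [h1, Complex.norm_cpow_real]
  rw [hcp]
  set X : ℝ := 1 + ρ + |s| with hX
  set Y : ℝ := 1 + abs (ρ - |s|) with hY
  have hX1 : 1 ≤ X := by rw [hX]; linarith
  have hY1 : 1 ≤ Y := by rw [hY]; linarith [abs_nonneg (ρ - |s|)]
  have hzn : ‖z‖ ≤ 1 + |s| := by
    rw [hzeq]
    refine (norm_sub_le _ _).trans ?_
    simp
  have hPb : ‖P z ρ‖ ≤ C * X ^ (n + 1) := by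
    refine (hb z ρ).trans ?_
    rw [abs_of_nonneg hρ0]
    have h1 : ‖z‖ + ρ ≤ X := by rw [hX]; linarith
    gcongr
  have hlow : X * Y / 2 ≤ ‖z ^ 2 + (ρ : ℂ) ^ 2‖ := by
    have h1 : ‖z ^ 2 + (ρ : ℂ) ^ 2‖ ^ 2 = (1 - s ^ 2 + ρ ^ 2) ^ 2 + 4 * s ^ 2 := by
      rw [Complex.sq_norm, Complex.normSq_apply]
      have hre : (z ^ 2 + (ρ : ℂ) ^ 2).re = 1 - s ^ 2 + ρ ^ 2 := by
        simp [pow_two, Complex.mul_re, hzre, hzim]
      have him : (z ^ 2 + (ρ : ℂ) ^ 2).im = -(2 * s) := by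
        simp [pow_two, Complex.mul_im, hzre, hzim]
        ring
      rw [hre, him]
      ring
    have h2 : (X * Y / 2) ^ 2 ≤ ‖z ^ 2 + (ρ : ℂ) ^ 2‖ ^ 2 := by
      rw [h1]
      have h3 : (1 - s ^ 2 + ρ ^ 2) ^ 2 + 4 * s ^ 2 =
          (1 + abs (ρ - |s|) ^ 2) * (1 + (ρ + |s|) ^ 2) := by
        rw [sq_abs]
        have h4 : |s| ^ 2 = s ^ 2 := sq_abs s
        have h5 : (1 - s ^ 2 + ρ ^ 2) ^ 2 + 4 * s ^ 2 =
          (1 - |s| ^ 2 + ρ ^ 2) ^ 2 + 4 * |s| ^ 2 := by rw [h4]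
        rw [h5]
        ring
      rw [h3]
      have h4 : (1 + abs (ρ - |s|)) ^ 2 / 2 ≤ 1 + abs (ρ - |s|) ^ 2 := by
        nlinarith [sq_nonneg (1 - abs (ρ - |s|))]
      have h5 : (1 + (ρ + |s|)) ^ 2 / 2 ≤ 1 + (ρ + |s|) ^ 2 := by
        nlinarith [sq_nonneg (1 - (ρ + |s|))]
      calc (X * Y / 2) ^ 2 = ((1 + abs (ρ - |s|)) ^ 2 / 2) * ((1 + (ρ + |s|)) ^ 2 / 2) := by
            rw [hX, hY]; ring
        _ ≤ _ := mul_le_mul h4 h5 (by positivity) (by positivity)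
    exact le_of_sq_le_sq h2 (norm_nonneg _)
  have hXY : 0 < X * Y / 2 := by positivity
  have h2 : ‖z ^ 2 + (ρ : ℂ) ^ 2‖ ^ (-g) ≤ (X * Y / 2) ^ (-g) :=
    Real.rpow_le_rpow_of_nonpos hXY hlow (by linarith)
  have h3 : (X * Y / 2) ^ (-g) = 2 ^ g * (X ^ (-g) * Y ^ (-g)) := by
    rw [Real.div_rpow (by positivity) (by norm_num), Real.mul_rpow (by positivity) (by positivity),
      Real.rpow_neg (by norm_num : (0 : ℝ) ≤ 2), div_inv_eq_mul]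
    ring
  have h4 : X ^ (n + 1) * X ^ (-g) = X ^ (-(((d : ℝ) - 1) / 2)) := by
    rw [← Real.rpow_natCast, ← Real.rpow_add (by positivity)]
    congr 1
    rw [hg]
    push_cast
    ring
  calc ‖P z ρ‖ * ‖z ^ 2 + (ρ : ℂ) ^ 2‖ ^ (-g)
      ≤ (C * X ^ (n + 1)) * (2 ^ g * (X ^ (-g) * Y ^ (-g))) := by
        rw [← h3]
        exact mul_le_mul hPb h2 (Real.rpow_nonneg (norm_nonneg _) _) (by positivity)
    _ = C * 2 ^ g * (X ^ (n + 1) * X ^ (-g)) * Y ^ (-g) := by ring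
    _ = _ := by rw [h4]

end Pool.Agent.H22.KL
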