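import Pool.Agent.H82.KL.Targets

/-! Row PKZ of the board `kl_modules` (MP_ee74d2_an). -/

set_option autoImplicit false

namespace Pool.Agent.H22.KL

open MeasureTheory Set Filter Pool.Agent.H82.KL
open scoped ENNReal NNReal Topology

theorem norm_e (x : ℝ) : ‖e x‖ = 1 := by
  unfold e
  exact Complex.norm_exp_ofReal_mul_I _

theorem e_add (x y : ℝ) : e (x + y) = e x * e y := by
  unfold e
  rw [← Complex.exp_add]
  congr 1
  push_cast
  ring

theorem continuous_e : Continuous e := by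
  unfold e
  fun_prop

/-- `‖ξ‖ ^ n * exp (- b ‖ξ‖)` is integrable -/
theorem expint (d n : ℕ) (b : ℝ) (hb : 0 < b) :
    Integrable (fun ξ : EE d => ‖ξ‖ ^ n * Real.exp (-(b * ‖ξ‖))) := by
  have h1 : Integrable (fun ξ : EE d => (1 + ‖ξ‖) ^ (-((d : ℝ) + 1))) := by
    apply integrable_one_add_norm
    rw [finrank_euclideanSpace, Fintype.card_fin]
    linarith
  set k : ℕ := n + d + 1 with hk
  refine ((h1.const_mul (Real.exp b * (k.factorial : ℝ) / b ^ k))).mono' ?_ ?_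
  · exact (Continuous.aestronglyMeasurable (by fun_prop))
  · refine Eventually.of_forall fun ξ => ?_
    have hx : 0 ≤ ‖ξ‖ := norm_nonneg ξ
    rw [Real.norm_of_nonneg (by positivity)]
    have h2 := Real.pow_div_factorial_le_exp (b * (1 + ‖ξ‖)) (by positivity) k
    have h3 : Real.exp (b * (1 + ‖ξ‖)) = Real.exp b * Real.exp (b * ‖ξ‖) := by
      rw [← Real.exp_add]; congr 1; ring
    rw [h3, mul_pow] at h2
    have hfac : (0 : ℝ) < (k.factorial : ℝ) := by exact_mod_cast Nat.factorial_pos k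
    rw [div_le_iff₀ hfac] at h2
    have h4 : (1 + ‖ξ‖) ^ (-((d : ℝ) + 1)) = ((1 + ‖ξ‖) ^ (d + 1))⁻¹ := by
      rw [Real.rpow_neg (by positivity), ← Real.rpow_natCast]
      push_cast
      rfl
    rw [h4]
    have h5 : Real.exp (-(b * ‖ξ‖)) * Real.exp (b * ‖ξ‖) = 1 := by
      rw [← Real.exp_add]; simp
    have h6 : ‖ξ‖ ^ n ≤ (1 + ‖ξ‖) ^ n := pow_le_pow_left₀ hx (by linarith) n
    have h7 : (1 + ‖ξ‖) ^ k = (1 + ‖ξ‖) ^ n * (1 + ‖ξ‖) ^ (d + 1) := by
      rw [← pow_add, hk, add_assoc]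
    have hp1 : 0 < (1 + ‖ξ‖) ^ (d + 1) := by positivity
    have hbk : 0 < b ^ k := by positivity
    rw [← div_eq_mul_inv, le_div_iff₀ hp1, div_eq_mul_inv, le_mul_inv_iff₀ hbk]
    have hE : 0 < Real.exp (-(b * ‖ξ‖)) := Real.exp_pos _
    calc ‖ξ‖ ^ n * Real.exp (-(b * ‖ξ‖)) * (1 + ‖ξ‖) ^ (d + 1) * b ^ k
        ≤ (1 + ‖ξ‖) ^ n * Real.exp (-(b * ‖ξ‖)) * (1 + ‖ξ‖) ^ (d + 1) * b ^ k := by gcongr
      _ = Real.exp (-(b * ‖ξ‖)) * (b ^ k * (1 + ‖ξ‖) ^ k) := by rw [h7]; ring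
      _ ≤ Real.exp (-(b * ‖ξ‖)) * (Real.exp b * Real.exp (b * ‖ξ‖) * k.factorial) := by gcongr
      _ = Real.exp b * k.factorial * (Real.exp (-(b * ‖ξ‖)) * Real.exp (b * ‖ξ‖)) := by ring
      _ = Real.exp b * k.factorial := by rw [h5, mul_one]

/-- the integrand of `JJ` -/
noncomputable def ji {d : ℕ} (n : ℕ) (y : EE d) (z : ℂ) (ξ : EE d) : ℂ :=
  e (inner ℝ y ξ) * ((‖ξ‖ : ℂ) ^ n * Complex.exp (-(2 * (Real.pi : ℂ) * z * (‖ξ‖ : ℂ))))

theorem norm_ji {d : ℕ} (n : ℕ) (y : EE d) (z : ℂ) (ξ : EE d) :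
    ‖ji n y z ξ‖ = ‖ξ‖ ^ n * Real.exp (-(2 * Real.pi * z.re * ‖ξ‖)) := by
  unfold ji
  rw [norm_mul, norm_e, one_mul, norm_mul, norm_pow, Complex.norm_real, Complex.norm_exp,
    Real.norm_of_nonneg (norm_nonneg ξ)]
  congr 2
  simp [Complex.mul_re, Complex.mul_im]

theorem continuous_ji {d : ℕ} (n : ℕ) (y : EE d) (z : ℂ) : Continuous (ji n y z) := by
  unfold ji
  have h1 : Continuous fun ξ : EE d => e (inner ℝ y ξ) := continuous_e.comp (by fun_prop)
  have h2 : Continuous fun ξ : EE d => ((‖ξ‖ : ℝ) : ℂ) :=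
    Complex.continuous_ofReal.comp continuous_norm
  fun_prop

theorem integrable_ji {d : ℕ} (n : ℕ) (y : EE d) (z : ℂ) (hz : 0 < z.re) :
    Integrable (ji n y z) := by
  refine (expint d n (2 * Real.pi * z.re) (by positivity)).mono'
    (continuous_ji n y z).aestronglyMeasurable (Eventually.of_forall fun ξ => ?_)
  rw [norm_ji]

/-- the Fourier transform of `‖ξ‖ ^ n * exp (-2 π z ‖ξ‖)` -/
noncomputable def JJ {d : ℕ} (n : ℕ) (y : EE d) (z : ℂ) : ℂ := ∫ ξ : EE d, ji n y z ξ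

theorem hasDerivAt_JJ {d : ℕ} (n : ℕ) (y : EE d) (z : ℂ) (hz : 0 < z.re) :
    HasDerivAt (JJ n y) (-(2 * (Real.pi : ℂ)) * JJ (n + 1) y z) z := by
  have hint : JJ (n + 1) y z = ∫ ξ : EE d, ji (n + 1) y z ξ := rfl
  rw [hint, ← integral_const_mul]
  set δ : ℝ := z.re / 2 with hδ
  have hδ0 : 0 < δ := by positivity
  have hball : Metric.ball z δ ∈ 𝓝 z := Metric.ball_mem_nhds z hδ0
  have hre : ∀ w ∈ Metric.ball z δ, δ < w.re := by
    intro w hw
    rw [Metric.mem_ball, Complex.dist_eq] at hw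
    have h1 := (Complex.abs_re_le_norm (w - z)).trans_lt hw
    rw [Complex.sub_re, abs_lt] at h1
    have h2 : δ + δ = z.re := by rw [hδ]; ring
    linarith [h1.1]
  refine (hasDerivAt_integral_of_dominated_loc_of_deriv_le (μ := volume)
    (F := fun w ξ => ji n y w ξ) (F' := fun w ξ => -(2 * (Real.pi : ℂ)) * ji (n + 1) y w ξ)
    (bound := fun ξ => 2 * Real.pi * (‖ξ‖ ^ (n + 1) * Real.exp (-(2 * Real.pi * δ * ‖ξ‖))))
    (s := Metric.ball z δ) hball ?_ (integrable_ji n y z hz) ?_ ?_ ?_ ?_).2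
  · exact Eventually.of_forall fun w => (continuous_ji n y w).aestronglyMeasurable
  · exact ((continuous_ji (n + 1) y z).const_mul _).aestronglyMeasurable
  · refine Eventually.of_forall fun ξ w hw => ?_
    rw [norm_mul, norm_ji]
    have h1 : ‖-(2 * (Real.pi : ℂ))‖ = 2 * Real.pi := by
      rw [norm_neg, norm_mul, Complex.norm_real, Real.norm_of_nonneg Real.pi_pos.le]
      simp
    rw [h1]
    have h2 := hre w hw
    have hx : 0 ≤ ‖ξ‖ := norm_nonneg ξ
    have hpi := Real.pi_pos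
    have h3 : -(2 * Real.pi * w.re * ‖ξ‖) ≤ -(2 * Real.pi * δ * ‖ξ‖) := by
      have h4 : 2 * Real.pi * δ * ‖ξ‖ ≤ 2 * Real.pi * w.re * ‖ξ‖ := by gcongr
      linarith
    gcongr
  · exact ((expint d (n + 1) (2 * Real.pi * δ) (by positivity)).const_mul _)
  · refine Eventually.of_forall fun ξ w _ => ?_
    unfold ji
    have h1 : HasDerivAt (fun w : ℂ => -(2 * (Real.pi : ℂ) * w * (‖ξ‖ : ℂ)))
        (-(2 * (Real.pi : ℂ) * (‖ξ‖ : ℂ))) w := by
      have h2 := ((hasDerivAt_id w).const_mul (-(2 * (Real.pi : ℂ) * (‖ξ‖ : ℂ))))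
      rw [mul_one] at h2
      refine h2.congr_of_eventuallyEq (Eventually.of_forall fun x => ?_)
      simp only [id]
      ring
    have h2 := ((h1.cexp).const_mul ((‖ξ‖ : ℂ) ^ n)).const_mul (e (inner ℝ y ξ))
    refine h2.congr_deriv ?_
    rw [pow_succ]
    ring

theorem slit {z : ℂ} (hz : 0 < z.re) (ρ : ℝ) : z ^ 2 + (ρ : ℂ) ^ 2 ∈ Complex.slitPlane := by
  rw [Complex.mem_slitPlane_iff]
  have hre : (z ^ 2 + (ρ : ℂ) ^ 2).re = z.re ^ 2 - z.im ^ 2 + ρ ^ 2 := by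
    simp [pow_two, Complex.mul_re]
  have him : (z ^ 2 + (ρ : ℂ) ^ 2).im = 2 * z.re * z.im := by
    simp [pow_two, Complex.mul_im]
    ring
  rw [hre, him]
  by_cases h : z.im = 0
  · left
    rw [h]
    nlinarith [sq_nonneg ρ, pow_pos hz 2]
  · right
    exact mul_ne_zero (mul_ne_zero two_ne_zero hz.ne') h

theorem pkz_main (h : T_PKF) : T_PKZ := by
  intro d
  obtain ⟨c, -, hc⟩ := h d
  refine ⟨c, fun z y hz => ?_⟩
  set G : ℂ → ℂ := fun z => (c : ℂ) * z *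
    (z ^ 2 + (‖y‖ : ℂ) ^ 2) ^ (-((((d : ℝ) + 1) / 2 : ℝ) : ℂ)) with hG
  set P : Set ℂ := {z | 0 < z.re} with hP
  have hPo : IsOpen P := isOpen_lt continuous_const Complex.continuous_re
  have hPc : IsPreconnected P := (convex_halfSpace_re_gt 0).isPreconnected
  have hJ : DifferentiableOn ℂ (JJ 0 y) P := fun w hw =>
    (hasDerivAt_JJ 0 y w hw).differentiableAt.differentiableWithinAt
  have hGd : DifferentiableOn ℂ G P := by
    intro w hw
    apply DifferentiableAt.differentiableWithinAt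
    rw [hG]
    refine DifferentiableAt.mul (by fun_prop) ?_
    exact DifferentiableAt.cpow (by fun_prop) (by fun_prop) (slit hw ‖y‖)
  have h1 : (1 : ℂ) ∈ P := by rw [hP]; simp
  have hreal : ∀ a : ℝ, 0 < a → JJ 0 y (a : ℂ) = G (a : ℂ) := by
    intro a ha
    have h2 := hc a y ha
    have h3 : JJ 0 y (a : ℂ) = ∫ ξ : EE d, e (inner ℝ y ξ) *
        ((Real.exp (-(2 * Real.pi * a * ‖ξ‖)) : ℝ) : ℂ) := by
      unfold JJ
      congr 1
      funext ξ
      unfold ji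
      rw [pow_zero, one_mul]
      push_cast
      rfl
    rw [h3, h2, hG]
    simp only
    have h4 : ((a : ℂ) ^ 2 + (‖y‖ : ℂ) ^ 2) = ((a ^ 2 + ‖y‖ ^ 2 : ℝ) : ℂ) := by push_cast; rfl
    have h5 : (-((((d : ℝ) + 1) / 2 : ℝ) : ℂ)) = ((-(((d : ℝ) + 1) / 2) : ℝ) : ℂ) := by
      push_cast; rfl
    rw [h4, h5, ← Complex.ofReal_cpow (by positivity), Real.rpow_neg (by positivity)]
    push_cast
    rw [div_eq_mul_inv]
  have hfreq : ∃ᶠ w in 𝓝[≠] (1 : ℂ), JJ 0 y w = G w := by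
    have ht : Tendsto (fun a : ℝ => (a : ℂ)) (𝓝[≠] (1 : ℝ)) (𝓝[≠] (1 : ℂ)) := by
      apply tendsto_nhdsWithin_of_tendsto_nhds_of_eventually_within
      · have := Complex.continuous_ofReal.tendsto (1 : ℝ)
        rw [Complex.ofReal_one] at this
        exact this.mono_left nhdsWithin_le_nhds
      · filter_upwards [self_mem_nhdsWithin] with a ha
        intro h0
        apply ha
        rw [mem_singleton_iff] at h0 ⊢
        exact_mod_cast h0
    refine ht.frequently (Eventually.frequently ?_)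
    have h2 : ∀ᶠ a : ℝ in 𝓝 (1 : ℝ), 0 < a := lt_mem_nhds one_pos
    filter_upwards [nhdsWithin_le_nhds h2] with a ha
    exact hreal a ha
  have hEq := AnalyticOnNhd.eqOn_of_preconnected_of_frequently_eq (hJ.analyticOnNhd hPo)
    (hGd.analyticOnNhd hPo) hPc h1 hfreq
  have h2 := hEq hz
  have h3 : JJ 0 y z = ∫ ξ : EE d, e (inner ℝ y ξ) *
      Complex.exp (-(2 * (Real.pi : ℂ) * z * (‖ξ‖ : ℂ))) := by
    unfold JJ
    congr 1
    funext ξ
    unfold ji
    rw [pow_zero, one_mul]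
  rw [← h3, h2]

end Pool.Agent.H22.KL
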