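import Pool.Agent.H82.KL.Targets

/-! Row SUPB of the board `kl_modules` (MP_ee74d2_an). -/

set_option autoImplicit false

namespace Pool.Agent.H22.KL

open MeasureTheory Set Filter Pool.Agent.H82.KL
open scoped ENNReal NNReal Topology

/-- the pointwise bound by the `L¹` norm of the kernel on a set -/
theorem W_le {d : ℕ} (a f : EE d → ℂ) (z : EE d × ℝ) (N : ℝ) (hf : ∀ y, ‖f y‖ ≤ N)
    (S : Set (EE d)) (hS : MeasurableSet S) (h0 : ∀ y, y ∉ S → f (z.1 - y) = 0) :
    ‖W a f z‖ₑ ≤ ENNReal.ofReal N * ∫⁻ y in S, ‖U a (y, z.2)‖ₑ := by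
  have h1 : W a f z = ∫ y : EE d, U a (y, z.2) * f (z.1 - y) := by
    unfold W
    rw [← integral_sub_left_eq_self (fun y : EE d => U a (y, z.2) * f (z.1 - y)) volume z.1]
    congr 1
    funext y
    rw [sub_sub_cancel]
  rw [h1]
  refine (enorm_integral_le_lintegral_enorm _).trans ?_
  rw [← lintegral_const_mul' _ _ ENNReal.ofReal_ne_top, ← lintegral_indicator hS]
  refine lintegral_mono fun y => ?_
  by_cases hy : y ∈ S
  · rw [indicator_of_mem hy, enorm_mul, mul_comm]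
    gcongr
    rw [← ofReal_norm]
    exact ENNReal.ofReal_le_ofReal (hf _)
  · rw [indicator_of_notMem hy, h0 y hy, mul_zero, enorm_zero]

theorem supb_main (h : T_TAIL) : T_SUPB := by
  intro d M a hd ha
  obtain ⟨C₀, hC₀⟩ := h d 0 a hd ha
  obtain ⟨C₁, hC₁⟩ := h d (M + d) a hd ha
  have hd' : (1 : ℝ) ≤ d := by exact_mod_cast hd
  set A : ℝ := ((d : ℝ) - 1) / 2 with hA
  have hA0 : 0 ≤ A := by rw [hA]; linarith
  have hAd : A ≤ d := by rw [hA]; linarith
  refine ⟨((C₀ : ℝ) + C₁) * 3 ^ A, by positivity, fun R N f z hR hz1 hz2 hfm hf => ?_⟩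
  have hN : 0 ≤ N := (norm_nonneg _).trans (hf 0)
  have hR0 : 0 < R := by linarith
  have hs : |z.2| = z.2 := abs_of_nonneg (by linarith)
  have hpow : (1 + |z.2|) ^ A ≤ 3 ^ A * R ^ A := by
    rw [hs, ← Real.mul_rpow (by norm_num) hR0.le]
    exact Real.rpow_le_rpow (by linarith) (by linarith) hA0
  constructor
  · have h1 := W_le a f z N hf univ MeasurableSet.univ (fun y hy => absurd (mem_univ y) hy)
    have h2 := hC₀ z.2 0 le_rfl
    have h3 : {y : EE d | 0 ≤ abs (‖y‖ - |z.2|)} = univ := by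
      ext y
      simp
    rw [h3] at h2
    have h4 : ‖W a f z‖ₑ ≤ ENNReal.ofReal (N * (C₀ * (3 ^ A * R ^ A))) := by
      refine h1.trans ?_
      rw [ENNReal.ofReal_mul hN]
      gcongr
      refine h2.trans ?_
      rw [ENNReal.ofReal_mul (NNReal.coe_nonneg _), ENNReal.ofReal_coe_nnreal]
      refine mul_le_mul' le_rfl (ENNReal.ofReal_le_ofReal ?_)
      rw [pow_zero, inv_one, mul_one]
      exact hpow
    rw [← ofReal_norm, ENNReal.ofReal_le_ofReal_iff (by positivity)] at h4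
    refine h4.trans ?_
    have h5 : 0 ≤ N * ((C₁ : ℝ) * (3 ^ A * R ^ A)) := by positivity
    calc N * (C₀ * (3 ^ A * R ^ A)) ≤ N * (C₀ * (3 ^ A * R ^ A)) + N * (C₁ * (3 ^ A * R ^ A)) := by
          linarith
      _ = _ := by ring
  · intro hsup
    have hms : MeasurableSet {y : EE d | R ≤ abs (‖y‖ - |z.2|)} :=
      measurableSet_le measurable_const (by fun_prop)
    have h1 := W_le a f z N hf {y : EE d | R ≤ abs (‖y‖ - |z.2|)} hms (by
      intro y hy
      apply hsup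
      rw [dist_eq_norm, sub_sub_cancel_left, norm_neg]
      by_contra hlt
      apply hy
      rw [Set.mem_ofPred_eq]
      have h2 := le_abs_self (‖y‖ - |z.2|)
      rw [hs] at h2 ⊢
      linarith)
    have h2 := hC₁ z.2 R hR0.le
    have h4 : ‖W a f z‖ₑ ≤ ENNReal.ofReal (N * (C₁ * (3 ^ A * (R ^ M)⁻¹))) := by
      refine h1.trans ?_
      rw [ENNReal.ofReal_mul hN]
      gcongr
      refine h2.trans ?_
      rw [ENNReal.ofReal_mul (NNReal.coe_nonneg _), ENNReal.ofReal_coe_nnreal]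
      refine mul_le_mul' le_rfl (ENNReal.ofReal_le_ofReal ?_)
      have h5 : ((1 + R) ^ (M + d))⁻¹ ≤ (R ^ M)⁻¹ * (R ^ d)⁻¹ := by
        rw [← mul_inv, ← pow_add]
        exact inv_anti₀ (by positivity) (pow_le_pow_left₀ hR0.le (by linarith) _)
      have h6 : R ^ A * (R ^ d)⁻¹ ≤ 1 := by
        rw [← div_eq_mul_inv, div_le_one (by positivity), ← Real.rpow_natCast]
        exact Real.rpow_le_rpow_of_exponent_le hR hAd
      calc (1 + |z.2|) ^ A * ((1 + R) ^ (M + d))⁻¹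
          ≤ (3 ^ A * R ^ A) * ((R ^ M)⁻¹ * (R ^ d)⁻¹) :=
            mul_le_mul hpow h5 (by positivity) (by positivity)
        _ = 3 ^ A * (R ^ M)⁻¹ * (R ^ A * (R ^ d)⁻¹) := by ring
        _ ≤ 3 ^ A * (R ^ M)⁻¹ * 1 := mul_le_mul_of_nonneg_left h6 (by positivity)
        _ = _ := mul_one _
    rw [← ofReal_norm, ENNReal.ofReal_le_ofReal_iff (by positivity)] at h4
    refine h4.trans ?_
    have h5 : 0 ≤ N * ((C₀ : ℝ) * (3 ^ A * (R ^ M)⁻¹)) := by positivity
    calc N * (C₁ * (3 ^ A * (R ^ M)⁻¹)) ≤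
          N * (C₁ * (3 ^ A * (R ^ M)⁻¹)) + N * (C₀ * (3 ^ A * (R ^ M)⁻¹)) := by
          linarith
      _ = _ := by ring

end Pool.Agent.H22.KL
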