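import Pool.Agent.H82.KL.Targets

/-! Row TAIL of the board `kl_modules` (MP_ee74d2_an). -/

set_option autoImplicit false

namespace Pool.Agent.H22.KL

open MeasureTheory Set Filter Pool.Agent.H82.KL
open scoped ENNReal NNReal Topology

/-- the radial profile -/
noncomputable def prof (d : ℕ) (s ρ : ℝ) : ℝ :=
  (1 + ρ + |s|) ^ (-(((d : ℝ) - 1) / 2)) * ((1 + abs (ρ - |s|)) ^ (d + 3))⁻¹

theorem prof_bound (d : ℕ) (hd : 1 ≤ d) (s ρ : ℝ) (hρ : 0 ≤ ρ) :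
    ρ ^ (d - 1) * prof d s ρ ≤ 2 ^ (((d : ℝ) - 1) / 2) * (1 + |s|) ^ (((d : ℝ) - 1) / 2) *
      (1 + ‖ρ - |s|‖) ^ (-(2 : ℝ)) := by
  have hd' : (1 : ℝ) ≤ d := by exact_mod_cast hd
  have hs : 0 ≤ |s| := abs_nonneg s
  have ht : 0 ≤ abs (ρ - |s|) := abs_nonneg _
  set A : ℝ := ((d : ℝ) - 1) / 2 with hA
  have hA0 : 0 ≤ A := by rw [hA]; linarith
  set t : ℝ := abs (ρ - |s|) with htdef
  have hX : 0 < 1 + ρ + |s| := by linarith
  have h1 : ρ ^ (d - 1) * (1 + ρ + |s|) ^ (-A) ≤ (1 + ρ + |s|) ^ A := by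
    have h2 : ρ ^ (d - 1) ≤ (1 + ρ + |s|) ^ (2 * A) := by
      have h3 : (1 + ρ + |s|) ^ (2 * A) = (1 + ρ + |s|) ^ (d - 1) := by
        rw [← Real.rpow_natCast]
        congr 1
        rw [Nat.cast_sub hd, hA]
        push_cast
        ring
      rw [h3]
      exact pow_le_pow_left₀ hρ (by linarith) _
    calc ρ ^ (d - 1) * (1 + ρ + |s|) ^ (-A) ≤ (1 + ρ + |s|) ^ (2 * A) * (1 + ρ + |s|) ^ (-A) :=
          mul_le_mul_of_nonneg_right h2 (Real.rpow_nonneg hX.le _)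
      _ = _ := by
        rw [← Real.rpow_add hX]
        congr 1
        ring
  have h4 : 1 + ρ + |s| ≤ 2 * (1 + |s|) * (1 + t) := by
    have h5 : ρ ≤ |s| + t := by
      have := le_abs_self (ρ - |s|)
      rw [htdef]
      linarith
    nlinarith
  have h5 : (1 + ρ + |s|) ^ A ≤ 2 ^ A * (1 + |s|) ^ A * (1 + t) ^ A := by
    calc (1 + ρ + |s|) ^ A ≤ (2 * (1 + |s|) * (1 + t)) ^ A := Real.rpow_le_rpow hX.le h4 hA0
      _ = _ := by
        rw [Real.mul_rpow (by positivity) (by positivity), Real.mul_rpow (by norm_num)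
          (by positivity)]
  have h6 : (1 + t) ^ A * ((1 + t) ^ (d + 3))⁻¹ ≤ (1 + t) ^ (-(2 : ℝ)) := by
    have h7 : ((1 + t) ^ (d + 3))⁻¹ = (1 + t) ^ (-((d : ℝ) + 3)) := by
      rw [Real.rpow_neg (by positivity), ← Real.rpow_natCast]
      push_cast
      rfl
    rw [h7, ← Real.rpow_add (by positivity)]
    refine Real.rpow_le_rpow_of_exponent_le (by linarith) ?_
    rw [hA]
    linarith
  have hn : ‖ρ - |s|‖ = t := Real.norm_eq_abs _
  rw [hn]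
  unfold prof
  rw [← hA, ← htdef]
  calc ρ ^ (d - 1) * ((1 + ρ + |s|) ^ (-A) * ((1 + t) ^ (d + 3))⁻¹)
      = (ρ ^ (d - 1) * (1 + ρ + |s|) ^ (-A)) * ((1 + t) ^ (d + 3))⁻¹ := by ring
    _ ≤ (2 ^ A * (1 + |s|) ^ A * (1 + t) ^ A) * ((1 + t) ^ (d + 3))⁻¹ :=
        mul_le_mul_of_nonneg_right (h1.trans h5) (by positivity)
    _ = 2 ^ A * (1 + |s|) ^ A * ((1 + t) ^ A * ((1 + t) ^ (d + 3))⁻¹) := by ring
    _ ≤ _ := mul_le_mul_of_nonneg_left h6 (by positivity)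

theorem prof_nonneg (d : ℕ) (s ρ : ℝ) (hρ : 0 ≤ ρ) : 0 ≤ prof d s ρ := by
  unfold prof
  have hs : 0 ≤ |s| := abs_nonneg s
  have h1 : 0 ≤ (1 + ρ + |s|) ^ (-(((d : ℝ) - 1) / 2)) := Real.rpow_nonneg (by linarith) _
  have h2 : 0 ≤ abs (ρ - |s|) := abs_nonneg _
  positivity

theorem prof_meas (d : ℕ) (s : ℝ) : Measurable (prof d s) := by
  unfold prof
  fun_prop

/-- the integral of the radial profile -/
theorem prof_int (d : ℕ) (hd : 1 ≤ d) : ∃ K : ℝ, 0 ≤ K ∧ ∀ s : ℝ,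
    Integrable (fun y : EE d => prof d s ‖y‖) ∧
    ∫ y : EE d, prof d s ‖y‖ ≤ K * (1 + |s|) ^ (((d : ℝ) - 1) / 2) := by
  have hfr : Module.finrank ℝ (EE d) = d := by
    rw [finrank_euclideanSpace, Fintype.card_fin]
  have : Nontrivial (EE d) := by
    apply Module.nontrivial_of_finrank_pos (R := ℝ)
    rw [hfr]
    omega
  have hJ : Integrable (fun x : ℝ => (1 + ‖x‖) ^ (-(2 : ℝ))) := by
    apply integrable_one_add_norm
    rw [Module.finrank_self]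
    norm_num
  have hJ0 : 0 ≤ ∫ x : ℝ, (1 + ‖x‖) ^ (-(2 : ℝ)) := by positivity
  set A : ℝ := ((d : ℝ) - 1) / 2 with hA
  refine ⟨d * (volume.real (Metric.ball (0 : EE d) 1) * (2 ^ A * ∫ x : ℝ, (1 + ‖x‖) ^ (-(2 : ℝ)))),
    by positivity, fun s => ?_⟩
  have hJs : Integrable (fun x : ℝ => (1 + ‖x - |s|‖) ^ (-(2 : ℝ))) :=
    hJ.comp_sub_right |s|
  have hJsi : ∫ x : ℝ, (1 + ‖x - |s|‖) ^ (-(2 : ℝ)) = ∫ x : ℝ, (1 + ‖x‖) ^ (-(2 : ℝ)) :=
    integral_sub_right_eq_self (fun x : ℝ => (1 + ‖x‖) ^ (-(2 : ℝ))) |s|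
  have hbi : Integrable (fun x : ℝ => 2 ^ A * (1 + |s|) ^ A * (1 + ‖x - |s|‖) ^ (-(2 : ℝ))) :=
    hJs.const_mul _
  have hle : ∀ x ∈ Ioi (0 : ℝ), x ^ (d - 1) * prof d s x ≤
      2 ^ A * (1 + |s|) ^ A * (1 + ‖x - |s|‖) ^ (-(2 : ℝ)) := fun x hx =>
    prof_bound d hd s x (le_of_lt hx)
  have hon : IntegrableOn (fun x : ℝ => x ^ (d - 1) * prof d s x) (Ioi 0) := by
    refine Integrable.mono' hbi.integrableOn ?_ ?_
    · exact (((measurable_id.pow_const _).mul (prof_meas d s))).aestronglyMeasurable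
    · rw [ae_restrict_iff' measurableSet_Ioi]
      refine Eventually.of_forall fun x hx => ?_
      rw [Real.norm_of_nonneg]
      · exact hle x hx
      · exact mul_nonneg (pow_nonneg (le_of_lt hx) _) (prof_nonneg d s x (le_of_lt hx))
  constructor
  · rw [integrable_fun_norm_addHaar (μ := (volume : Measure (EE d))) (f := prof d s), hfr]
    simpa only [smul_eq_mul] using hon
  · rw [integral_fun_norm_addHaar (volume : Measure (EE d)) (prof d s), hfr]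
    simp only [smul_eq_mul, nsmul_eq_mul]
    have h1 : ∫ x in Ioi (0 : ℝ), x ^ (d - 1) * prof d s x ≤
        2 ^ A * (1 + |s|) ^ A * ∫ x : ℝ, (1 + ‖x‖) ^ (-(2 : ℝ)) := by
      calc ∫ x in Ioi (0 : ℝ), x ^ (d - 1) * prof d s x
          ≤ ∫ x in Ioi (0 : ℝ), 2 ^ A * (1 + |s|) ^ A * (1 + ‖x - |s|‖) ^ (-(2 : ℝ)) :=
            setIntegral_mono_on hon hbi.integrableOn measurableSet_Ioi hle
        _ ≤ ∫ x : ℝ, 2 ^ A * (1 + |s|) ^ A * (1 + ‖x - |s|‖) ^ (-(2 : ℝ)) :=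
            setIntegral_le_integral hbi (Eventually.of_forall fun x => by positivity)
        _ = _ := by rw [integral_const_mul, hJsi]
    calc (d : ℝ) * (volume.real (Metric.ball (0 : EE d) 1) *
          ∫ x in Ioi (0 : ℝ), x ^ (d - 1) * prof d s x)
        ≤ d * (volume.real (Metric.ball (0 : EE d) 1) *
          (2 ^ A * (1 + |s|) ^ A * ∫ x : ℝ, (1 + ‖x‖) ^ (-(2 : ℝ)))) := by gcongr
      _ = _ := by ring

theorem tail_main (h : T_K1) : T_TAIL := by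
  intro d M a hd ha
  obtain ⟨C, hC, hU⟩ := h d (M + (d + 3)) a hd ha
  obtain ⟨K, hK, hp⟩ := prof_int d hd
  refine ⟨Real.toNNReal (C * K), fun s r hr => ?_⟩
  obtain ⟨hpi, hple⟩ := hp s
  set A : ℝ := ((d : ℝ) - 1) / 2 with hA
  have hr1 : 0 < (1 + r) ^ M := by positivity
  have hpt : ∀ y ∈ {y : EE d | r ≤ abs (‖y‖ - |s|)}, ‖U a (y, s)‖ₑ ≤
      ENNReal.ofReal (C * ((1 + r) ^ M)⁻¹ * prof d s ‖y‖) := by
    intro y hy
    rw [← ofReal_norm]
    refine ENNReal.ofReal_le_ofReal ((hU y s).trans ?_)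
    unfold prof
    have h1 : 0 ≤ (1 + ‖y‖ + |s|) ^ (-(((d : ℝ) - 1) / 2)) :=
      Real.rpow_nonneg (by positivity) _
    have h2 : 0 ≤ abs (‖y‖ - |s|) := abs_nonneg _
    have h3 : ((1 + abs (‖y‖ - |s|)) ^ (M + (d + 3)))⁻¹ ≤
        ((1 + r) ^ M)⁻¹ * ((1 + abs (‖y‖ - |s|)) ^ (d + 3))⁻¹ := by
      rw [pow_add, mul_inv]
      refine mul_le_mul_of_nonneg_right ?_ (by positivity)
      refine inv_anti₀ hr1 (pow_le_pow_left₀ (by positivity) ?_ _)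
      have : r ≤ abs (‖y‖ - |s|) := hy
      linarith
    calc C * (1 + ‖y‖ + |s|) ^ (-(((d : ℝ) - 1) / 2)) *
          ((1 + abs (‖y‖ - |s|)) ^ (M + (d + 3)))⁻¹
        ≤ C * (1 + ‖y‖ + |s|) ^ (-(((d : ℝ) - 1) / 2)) *
          (((1 + r) ^ M)⁻¹ * ((1 + abs (‖y‖ - |s|)) ^ (d + 3))⁻¹) :=
          mul_le_mul_of_nonneg_left h3 (by positivity)
      _ = _ := by ring
  have hms : MeasurableSet {y : EE d | r ≤ abs (‖y‖ - |s|)} :=
    measurableSet_le measurable_const (by fun_prop)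
  calc ∫⁻ y in {y : EE d | r ≤ abs (‖y‖ - |s|)}, ‖U a (y, s)‖ₑ
      ≤ ∫⁻ y in {y : EE d | r ≤ abs (‖y‖ - |s|)},
          ENNReal.ofReal (C * ((1 + r) ^ M)⁻¹ * prof d s ‖y‖) := setLIntegral_mono' hms hpt
    _ ≤ ∫⁻ y : EE d, ENNReal.ofReal (C * ((1 + r) ^ M)⁻¹ * prof d s ‖y‖) :=
        setLIntegral_le_lintegral _ _
    _ = ENNReal.ofReal (∫ y : EE d, C * ((1 + r) ^ M)⁻¹ * prof d s ‖y‖) := by
        rw [ofReal_integral_eq_lintegral_ofReal (hpi.const_mul _)]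
        refine Eventually.of_forall fun y => ?_
        have := prof_nonneg d s ‖y‖ (norm_nonneg y)
        positivity
    _ ≤ ENNReal.ofReal ((C * K) * ((1 + |s|) ^ A * ((1 + r) ^ M)⁻¹)) := by
        refine ENNReal.ofReal_le_ofReal ?_
        rw [integral_const_mul]
        calc C * ((1 + r) ^ M)⁻¹ * ∫ y : EE d, prof d s ‖y‖
            ≤ C * ((1 + r) ^ M)⁻¹ * (K * (1 + |s|) ^ A) :=
              mul_le_mul_of_nonneg_left hple (by positivity)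
          _ = _ := by ring
    _ = _ := by
        rw [ENNReal.ofReal_mul (by positivity)]
        rfl

end Pool.Agent.H22.KL
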